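import Pool.Agent.H85.PS.Targets

set_option autoImplicit false

open Polynomial Finset Pool.Agent.H85.PS

namespace Pool.Agent.H83.PSV

theorem mem_II {s D : ℕ} (e : Fin s → ℕ) : e ∈ II s D ↔ ∑ k, e k ≤ D := by
  unfold II
  rw [Finset.mem_filter, Fintype.mem_piFinset]
  constructor
  · exact fun h => h.2
  · intro h
    refine ⟨fun k => ?_, h⟩
    rw [Finset.mem_range]
    have := Finset.single_le_sum (f := e) (fun i _ => Nat.zero_le _) (Finset.mem_univ k)
    omega

theorem sum_add_single {s : ℕ} (e : Fin s → ℕ) (k : Fin s) :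
    ∑ j, (e + Pi.single k 1 : Fin s → ℕ) j = ∑ j, e j + 1 := by
  simp only [Pi.add_apply, Finset.sum_add_distrib]
  congr 1
  rw [Finset.sum_pi_single']
  simp

/-- re-indexing -/
theorem shift {s D : ℕ} {R : Type*} [AddCommMonoid R] (k : Fin s) (f : (Fin s → ℕ) → R)
    (h0 : ∀ e, e k = 0 → f e = 0) (h1 : ∀ e, D < ∑ j, e j → f e = 0) :
    ∑ e ∈ II s D, f (e + Pi.single k 1) = ∑ e ∈ II s D, f e := by
  classical
  refine Finset.sum_bij_ne_zero (fun e _ _ => e + Pi.single k 1) ?_ ?_ ?_ ?_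
  · intro e _ hne
    rw [mem_II]
    by_contra hlt
    exact hne (h1 _ (by omega))
  · intro e₁ _ _ e₂ _ _ h
    exact add_right_cancel h
  · intro e he hne
    have hk : e k ≠ 0 := fun h => hne (h0 e h)
    have hsub : (e - Pi.single k 1) + Pi.single k 1 = e := by
      funext j
      by_cases hj : j = k
      · subst hj
        simp only [Pi.add_apply, Pi.sub_apply, Pi.single_eq_same]
        omega
      · simp [Pi.single_eq_of_ne hj]
    refine ⟨e - Pi.single k 1, ?_, ?_, hsub⟩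
    · rw [mem_II] at he ⊢
      have := sum_add_single (e - Pi.single k 1) k
      rw [hsub] at this
      omega
    · rw [hsub]; exact hne
  · intro e _ _
    rfl

/-- the Taylor shift as a ring homomorphism to power series -/
noncomputable def tp (z0 : ℚ) : ℚ[X] →+* PowerSeries ℚ :=
  (Polynomial.coeToPowerSeries.ringHom (R := ℚ)).comp ((taylorAlgHom z0 : ℚ[X] →ₐ[ℚ] ℚ[X]) : ℚ[X] →+* ℚ[X])

theorem tp_apply (z0 : ℚ) (p : ℚ[X]) : tp z0 p = ((taylor z0 p : ℚ[X]) : PowerSeries ℚ) := rfl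

theorem der_tp (z0 : ℚ) (p : ℚ[X]) :
    PowerSeries.derivative ℚ (tp z0 p) = tp z0 (derivative p) := by
  rw [tp_apply, tp_apply, PowerSeries.derivative_coe, taylor_apply, taylor_apply,
    Polynomial.derivative_comp]
  simp

theorem lg_der (c : ℚ) :
    (1 + PowerSeries.C c * PowerSeries.X) * PowerSeries.derivative ℚ (lg c) = PowerSeries.C c := by
  have hcoef : ∀ n, PowerSeries.coeff n (PowerSeries.derivative ℚ (lg c)) =
      (-1) ^ n * c ^ (n + 1) := by
    intro n
    rw [PowerSeries.coeff_derivative]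
    unfold lg
    rw [PowerSeries.coeff_mk]
    have : ((n : ℚ) + 1) ≠ 0 := by positivity
    push_cast
    field_simp
    ring
  ext n
  rw [add_mul, one_mul, map_add, mul_assoc, PowerSeries.coeff_C_mul, hcoef]
  rcases n with _ | n
  · rw [PowerSeries.coeff_zero_X_mul, PowerSeries.coeff_zero_C]
    simp
  · rw [PowerSeries.coeff_succ_X_mul, hcoef, PowerSeries.coeff_C, if_neg (Nat.succ_ne_zero n)]
    ring

theorem tp_lin (z0 a : ℚ) (h : 1 + a * z0 ≠ 0) :
    tp z0 (1 + C a * X) * PowerSeries.derivative ℚ (lam a z0) = PowerSeries.C a := by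
  have h1 : tp z0 (1 + C a * X) = PowerSeries.C (1 + a * z0) *
      (1 + PowerSeries.C (a / (1 + a * z0)) * PowerSeries.X) := by
    rw [tp_apply, map_add, taylor_mul, taylor_C, taylor_X, taylor_one]
    have h2 : (C 1 + C a * (X + C z0) : ℚ[X]) =
        C (1 + a * z0) * (1 + C (a / (1 + a * z0)) * X) := by
      rw [mul_add (C (1 + a * z0)), mul_one, ← mul_assoc, ← C_mul, mul_div_cancel₀ a h, mul_add,
        ← C_mul, C_add]
      ring
    rw [h2, Polynomial.coe_mul, Polynomial.coe_add, Polynomial.coe_mul, Polynomial.coe_C,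
      Polynomial.coe_C, Polynomial.coe_one, Polynomial.coe_X]
  unfold lam
  rw [h1, mul_assoc, lg_der, ← map_mul, mul_div_cancel₀ a h]

theorem tp_th {s : ℕ} (b : Fin s → ℚ) (z0 : ℚ) (hb : ∀ k, 1 + b k * z0 ≠ 0) (k : Fin s) :
    tp z0 (th b) * PowerSeries.derivative ℚ (lam (b k) z0) = tp z0 (thk b k) := by
  unfold th thk
  rw [← Finset.mul_prod_erase _ _ (Finset.mem_univ k), map_mul, map_mul,
    mul_right_comm, tp_lin z0 (b k) (hb k)]
  congr 1
  rw [tp_apply, taylor_C, Polynomial.coe_C]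

/-- one factor of the local expansion -/
noncomputable def wk {s : ℕ} (b : Fin s → ℚ) (z0 : ℚ) (e' e : Fin s → ℕ) (k : Fin s) :
    PowerSeries ℚ := ((e k).choose (e' k) : PowerSeries ℚ) * lam (b k) z0 ^ (e k - e' k)

/-- the product -/
noncomputable def wp {s : ℕ} (b : Fin s → ℚ) (z0 : ℚ) (e' e : Fin s → ℕ) : PowerSeries ℚ :=
  ∏ k, wk b z0 e' e k

theorem GG_eq {s : ℕ} (b : Fin s → ℚ) (z0 : ℚ) (D : ℕ) (A : Vec s) (e' : Fin s → ℕ) :
    GG b z0 D A e' = ∑ e ∈ II s D, tp z0 (A e) * wp b z0 e' e := by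
  unfold GG wp wk
  refine Finset.sum_congr rfl fun e _ => ?_
  rw [Finset.prod_mul_distrib, tp_apply, mul_assoc]

theorem der_pow_choose (L : PowerSeries ℚ) (n m : ℕ) :
    PowerSeries.derivative ℚ ((n.choose m : PowerSeries ℚ) * L ^ (n - m)) =
      (n : PowerSeries ℚ) * (((n - 1).choose m : PowerSeries ℚ) * L ^ (n - 1 - m)) *
        PowerSeries.derivative ℚ L := by
  rw [Derivation.leibniz]
  have h0 : PowerSeries.derivative ℚ (n.choose m : PowerSeries ℚ) = 0 := by
    rw [Derivation.map_natCast]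
  rw [h0, smul_zero, add_zero, smul_eq_mul, PowerSeries.derivative_pow]
  rcases Nat.lt_or_ge m n with h | h
  · obtain ⟨n, rfl⟩ : ∃ n', n = n' + 1 := ⟨n - 1, by omega⟩
    have hsub : n + 1 - m - 1 = n + 1 - 1 - m := by omega
    rw [hsub]
    have hc : (((n + 1).choose m : ℕ) : PowerSeries ℚ) * ((n + 1 - m : ℕ) : PowerSeries ℚ) =
        ((n + 1 : ℕ) : PowerSeries ℚ) * ((n + 1 - 1).choose m : ℕ) := by
      rw [← Nat.cast_mul, ← Nat.cast_mul]
      congr 1
      have := Nat.add_one_mul_choose_eq n m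
      have h2 := Nat.choose_mul_succ_eq n m
      rw [Nat.add_sub_cancel]
      rw [← h2]
      ring
    linear_combination (L ^ (n + 1 - 1 - m) * PowerSeries.derivative ℚ L) * hc
  · have h1 : n - m = 0 := by omega
    rw [h1]
    rcases Nat.eq_zero_or_pos n with h2 | h2
    · subst h2; simp
    · have h3 : (n - 1).choose m = 0 := Nat.choose_eq_zero_of_lt (by omega)
      rw [h3]; simp

theorem der_prod {ι : Type*} [DecidableEq ι] (t : Finset ι) (f : ι → PowerSeries ℚ) :
    PowerSeries.derivative ℚ (∏ i ∈ t, f i) =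
      ∑ i ∈ t, (∏ j ∈ t.erase i, f j) * PowerSeries.derivative ℚ (f i) := by
  induction t using Finset.induction_on with
  | empty =>
    rw [Finset.prod_empty, Finset.sum_empty]
    exact Derivation.map_one_eq_zero _
  | insert a t ha ih =>
    rw [Finset.prod_insert ha, Derivation.leibniz, ih, Finset.sum_insert ha,
      Finset.erase_insert ha, smul_eq_mul, smul_eq_mul, Finset.mul_sum, add_comm]
    congr 1
    refine Finset.sum_congr rfl fun i hi => ?_
    have hne : a ≠ i := fun h => ha (h ▸ hi)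
    rw [Finset.erase_insert_of_ne hne, Finset.prod_insert (fun h => ha (Finset.mem_erase.1 h).2)]
    ring

theorem der_wp {s : ℕ} (b : Fin s → ℚ) (z0 : ℚ) (e' e : Fin s → ℕ) :
    PowerSeries.derivative ℚ (wp b z0 e' e) =
      ∑ k, (e k : PowerSeries ℚ) * wp b z0 e' (e - Pi.single k 1) *
        PowerSeries.derivative ℚ (lam (b k) z0) := by
  unfold wp
  rw [der_prod]
  refine Finset.sum_congr rfl fun k _ => ?_
  have h1 : PowerSeries.derivative ℚ (wk b z0 e' e k) =
      (e k : PowerSeries ℚ) * wk b z0 e' (e - Pi.single k 1) k *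
        PowerSeries.derivative ℚ (lam (b k) z0) := by
    unfold wk
    rw [der_pow_choose]
    simp
  have h2 : ∏ j ∈ Finset.univ.erase k, wk b z0 e' e j =
      ∏ j ∈ Finset.univ.erase k, wk b z0 e' (e - Pi.single k 1) j := by
    refine Finset.prod_congr rfl fun j hj => ?_
    have hj' := (Finset.mem_erase.1 hj).1
    unfold wk
    simp [Pi.single_eq_of_ne hj']
  rw [h1, h2, ← Finset.mul_prod_erase _ (wk b z0 e' (e - Pi.single k 1)) (Finset.mem_univ k)]
  ring

/-- the key identity -/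
theorem der_GG {s : ℕ} (D : ℕ) (b : Fin s → ℚ) (z0 : ℚ) (A : Vec s) (hA : Sup D A)
    (hb : ∀ k, 1 + b k * z0 ≠ 0) (e' : Fin s → ℕ) :
    tp z0 (th b) * PowerSeries.derivative ℚ (GG b z0 D A e') = GG b z0 D (nab b A) e' := by
  rw [GG_eq, GG_eq, map_sum, Finset.mul_sum]
  have h1 : ∀ e ∈ II s D, tp z0 (th b) * PowerSeries.derivative ℚ (tp z0 (A e) * wp b z0 e' e) =
      tp z0 (th b * derivative (A e)) * wp b z0 e' e +
        ∑ k, tp z0 (thk b k) * ((e k : PowerSeries ℚ) * tp z0 (A e) *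
          wp b z0 e' (e - Pi.single k 1)) := by
    intro e _
    rw [Derivation.leibniz, der_tp, der_wp, smul_eq_mul, smul_eq_mul, map_mul, mul_add,
      add_comm, Finset.mul_sum, Finset.mul_sum]
    congr 1
    · ring
    · refine Finset.sum_congr rfl fun k _ => ?_
      rw [← tp_th b z0 hb k]
      ring
  have h2 : ∀ e ∈ II s D, tp z0 (nab b A e) * wp b z0 e' e =
      tp z0 (th b * derivative (A e)) * wp b z0 e' e +
        ∑ k, tp z0 (thk b k) * (((e k + 1 : ℕ) : PowerSeries ℚ) * tp z0 (A (e + Pi.single k 1)) *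
          wp b z0 e' e) := by
    intro e _
    unfold nab
    rw [map_add, map_sum, add_mul, Finset.sum_mul]
    congr 1
    refine Finset.sum_congr rfl fun k _ => ?_
    rw [map_mul, map_mul, map_natCast]
    ring
  rw [Finset.sum_congr rfl h1, Finset.sum_congr rfl h2, Finset.sum_add_distrib,
    Finset.sum_add_distrib]
  congr 1
  rw [Finset.sum_comm, Finset.sum_comm (s := II s D)]
  refine Finset.sum_congr rfl fun k _ => ?_
  rw [← Finset.mul_sum, ← Finset.mul_sum]
  congr 1
  have h5 := shift (D := D) k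
    (fun e : Fin s → ℕ => (e k : PowerSeries ℚ) * tp z0 (A e) *
      wp b z0 e' (e - Pi.single k 1)) ?_ ?_
  · refine Eq.trans h5.symm (Finset.sum_congr rfl fun e _ => ?_)
    have h3 : e + Pi.single k 1 - Pi.single k 1 = e := by
      funext j; simp
    have h4 : (e + Pi.single k 1 : Fin s → ℕ) k = e k + 1 := by simp
    rw [h3, h4]
  · intro e he
    rw [he]; simp
  · intro e he
    rw [hA e he]; simp

theorem Sup_nab {s : ℕ} (D : ℕ) (b : Fin s → ℚ) (A : Vec s) (hA : Sup D A) :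
    Sup D (nab b A) := by
  intro e he
  unfold nab
  rw [hA e he, derivative_zero, mul_zero, zero_add]
  refine Finset.sum_eq_zero fun k _ => ?_
  rw [hA (e + Pi.single k 1) (by rw [sum_add_single]; omega), mul_zero]

/-- the combination -/
noncomputable def Ph {s : ℕ} (D : ℕ) (b : Fin s → ℚ) (z0 : ℚ) (Λ : (Fin s → ℕ) → ℚ) (A : Vec s) :
    PowerSeries ℚ := ∑ e ∈ II s D, Λ e • GG b z0 D A e

theorem der_Ph {s : ℕ} (D : ℕ) (b : Fin s → ℚ) (z0 : ℚ) (Λ : (Fin s → ℕ) → ℚ) (A : Vec s)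
    (hA : Sup D A) (hb : ∀ k, 1 + b k * z0 ≠ 0) :
    tp z0 (th b) * PowerSeries.derivative ℚ (Ph D b z0 Λ A) = Ph D b z0 Λ (nab b A) := by
  unfold Ph
  rw [map_sum, Finset.mul_sum]
  refine Finset.sum_congr rfl fun e _ => ?_
  rw [Derivation.map_smul, mul_smul_comm, der_GG D b z0 A hA hb]

theorem X_dvd_der (n : ℕ) (F : PowerSeries ℚ) (h : (PowerSeries.X : PowerSeries ℚ) ^ n ∣ F) :
    (PowerSeries.X : PowerSeries ℚ) ^ (n - 1) ∣ PowerSeries.derivative ℚ F := by
  rw [PowerSeries.X_pow_dvd_iff] at h ⊢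
  intro m hm
  rw [PowerSeries.coeff_derivative, h (m + 1) (by omega), zero_mul]

theorem dvd_iter {s : ℕ} (D : ℕ) (b : Fin s → ℚ) (z0 : ℚ) (Λ : (Fin s → ℕ) → ℚ) (A : Vec s)
    (hA : Sup D A) (hb : ∀ k, 1 + b k * z0 ≠ 0) (n : ℕ)
    (h : (PowerSeries.X : PowerSeries ℚ) ^ n ∣ Ph D b z0 Λ A) (i : ℕ) :
    Sup D (nabI b i A) ∧ (PowerSeries.X : PowerSeries ℚ) ^ (n - i) ∣ Ph D b z0 Λ (nabI b i A) := by
  induction i with
  | zero => exact ⟨hA, h⟩
  | succ i ih =>
    have h1 : nabI b (i + 1) A = nab b (nabI b i A) := by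
      unfold nabI
      rw [Function.iterate_succ_apply']
    rw [h1]
    refine ⟨Sup_nab D b _ ih.1, ?_⟩
    rw [← der_Ph D b z0 Λ _ ih.1 hb]
    have h2 := X_dvd_der (n - i) _ ih.2
    have h3 : n - i - 1 = n - (i + 1) := by omega
    rw [h3] at h2
    exact Dvd.dvd.mul_left h2 _

theorem const_GG {s : ℕ} (D : ℕ) (b : Fin s → ℚ) (z0 : ℚ) (B : Vec s) (e' : Fin s → ℕ)
    (he' : e' ∈ II s D) : PowerSeries.coeff 0 (GG b z0 D B e') = (B e').eval z0 := by
  rw [GG_eq, map_sum]
  have hlam : ∀ k, PowerSeries.constantCoeff (lam (b k) z0) = 0 := by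
    intro k
    unfold lam lg
    rw [← PowerSeries.coeff_zero_eq_constantCoeff_apply, PowerSeries.coeff_mk]
    simp
  have hw : ∀ e, PowerSeries.constantCoeff (wp b z0 e' e) = if e = e' then 1 else 0 := by
    intro e
    unfold wp
    rw [map_prod]
    split_ifs with h
    · refine Finset.prod_eq_one fun k _ => ?_
      unfold wk
      rw [h]; simp
    · obtain ⟨k, hk⟩ := Function.ne_iff.1 h
      refine Finset.prod_eq_zero (Finset.mem_univ k) ?_
      unfold wk
      rcases Nat.lt_or_ge (e k) (e' k) with h1 | h1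
      · rw [Nat.choose_eq_zero_of_lt h1]; simp
      · have h2 : e k - e' k ≠ 0 := by omega
        rw [map_mul, map_pow, hlam, zero_pow h2, mul_zero]
  rw [Finset.sum_eq_single e']
  · rw [PowerSeries.coeff_zero_eq_constantCoeff_apply, map_mul, hw, if_pos rfl, mul_one, tp_apply,
      ← PowerSeries.coeff_zero_eq_constantCoeff_apply, Polynomial.coeff_coe, taylor_coeff_zero]
  · intro e _ hne
    rw [PowerSeries.coeff_zero_eq_constantCoeff_apply, map_mul, hw, if_neg hne, mul_zero]
  · intro h; exact (h he').elim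

theorem pf_GSP (_h1 : T_SPD) : T_GSP := by
  intro s D b z0 A hA hb Λ n h i hi
  have h1 : (PowerSeries.X : PowerSeries ℚ) ^ n ∣ Ph D b z0 Λ A := by
    rw [PowerSeries.X_pow_dvd_iff]
    intro m hm
    unfold Ph
    rw [map_sum, ← h m hm]
    refine Finset.sum_congr rfl fun e _ => ?_
    rw [PowerSeries.coeff_smul, smul_eq_mul]
    rfl
  have h2 := (dvd_iter D b z0 Λ A hA hb n h1 i).2
  rw [PowerSeries.X_pow_dvd_iff] at h2
  have h3 := h2 0 (by omega)
  unfold Ph at h3
  rw [map_sum] at h3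
  rw [← h3]
  refine Finset.sum_congr rfl fun e he => ?_
  rw [PowerSeries.coeff_smul, smul_eq_mul, const_GG D b z0 _ e he]

end Pool.Agent.H83.PSV
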