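import Pool.Agent.H85.PS.Targets

set_option autoImplicit false

open Polynomial Finset Pool.Agent.H85.PS

namespace Pool.Agent.H83.PSV

/-- determinant bound with row dependent bounds -/
theorem det_row_le {ι : Type} [Fintype ι] [DecidableEq ι] (A : Matrix ι ι ℂ) (R : ι → ℝ)
    (hA : ∀ r c, ‖A r c‖ ≤ R r) : ‖A.det‖ ≤ ((Fintype.card ι).factorial : ℝ) * ∏ r, R r := by
  classical
  rw [Matrix.det_apply]
  refine (norm_sum_le _ _).trans ?_
  have h : ∀ σ ∈ (Finset.univ : Finset (Equiv.Perm ι)),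
      ‖Equiv.Perm.sign σ • ∏ i, A (σ i) i‖ ≤ ∏ r, R r := by
    intro σ _
    have h1 : ‖Equiv.Perm.sign σ • ∏ i, A (σ i) i‖ = ‖∏ i, A (σ i) i‖ := by
      rcases Int.units_eq_one_or (Equiv.Perm.sign σ) with h | h
      · rw [h]; simp
      · rw [h]; simp
    rw [h1, norm_prod]
    calc ∏ i, ‖A (σ i) i‖ ≤ ∏ i, R (σ i) :=
          Finset.prod_le_prod (fun i _ => norm_nonneg _) (fun i _ => hA _ _)
      _ = ∏ r, R r := Equiv.prod_comp σ R
  refine (Finset.sum_le_sum h).trans ?_
  rw [Finset.sum_const, Finset.card_univ, Fintype.card_perm, nsmul_eq_mul]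

theorem span_top {ι : Type} [Fintype ι] [DecidableEq ι] (n : ℕ) (Γ : ℕ → ι → ℤ)
    (h : ∀ Λ : ι → ℚ, (∀ i < n, ∑ e, Λ e * (Γ i e : ℚ) = 0) → Λ = 0) :
    Submodule.span ℚ (Set.range fun (i : Fin n) => (fun e => (Γ i e : ℚ) : ι → ℚ)) = ⊤ := by
  classical
  by_contra hne
  obtain ⟨f, hf0, hf⟩ := Submodule.exists_le_ker_of_lt_top _ (lt_top_iff_ne_top.2 hne)
  apply hf0
  have hfe : ∀ w : ι → ℚ, f w = ∑ e, f (Pi.single e 1) * w e := by
    intro w
    conv_lhs => rw [← Finset.univ_sum_single w]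
    rw [map_sum]
    refine Finset.sum_congr rfl fun e _ => ?_
    have : (Pi.single e (w e) : ι → ℚ) = w e • (Pi.single e 1 : ι → ℚ) := by
      rw [← Pi.single_smul]; simp
    rw [this, map_smul, smul_eq_mul, mul_comm]
  have h0 := h (fun e => f (Pi.single e 1)) ?_
  · ext e
    have := congrFun h0 e
    simpa using this
  · intro i hi
    rw [← hfe (fun e => (Γ i e : ℚ))]
    have : (fun e => (Γ i e : ℚ) : ι → ℚ) ∈
        Submodule.span ℚ (Set.range fun (i : Fin n) => (fun e => (Γ i e : ℚ) : ι → ℚ)) :=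
      Submodule.subset_span ⟨⟨i, hi⟩, rfl⟩
    exact hf this

/-- a square integer matrix with one row `p` and the others among the `Γ i` -/
theorem exists_rows {ι : Type} [Fintype ι] [DecidableEq ι] (p : ι → ℤ) (n : ℕ)
    (Γ : ℕ → ι → ℤ) (hp : p ≠ 0)
    (h : ∀ Λ : ι → ℚ, (∀ i < n, ∑ e, Λ e * (Γ i e : ℚ) = 0) → Λ = 0) :
    ∃ (B : Matrix ι ι ℤ) (r0 : ι), B.det ≠ 0 ∧ B r0 = p ∧
      ∀ r, r ≠ r0 → ∃ i < n, B r = Γ i := by
  classical
  set c : (ι → ℤ) → (ι → ℚ) := fun w e => (w e : ℚ) with hc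
  have cinj : Function.Injective c := by
    intro a b hab
    funext e
    have := congrFun hab e
    simpa [hc] using this
  have hpc : c p ≠ 0 := by
    intro h0
    apply hp
    apply cinj
    rw [h0]
    funext e
    simp [hc]
  set t : Set (ι → ℚ) := {c p} ∪ Set.range (fun (i : Fin n) => c (Γ i)) with ht
  have hs : LinearIndepOn ℚ id ({c p} : Set (ι → ℚ)) := by
    rw [linearIndepOn_singleton_iff]
    exact hpc
  have hst : ({c p} : Set (ι → ℚ)) ⊆ t := Set.subset_union_left
  set b : Set (ι → ℚ) := hs.extend hst with hb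
  have hbl : LinearIndepOn ℚ id b := hs.linearIndepOn_extend hst
  have hbs : b ⊆ t := hs.extend_subset hst
  have hpb : c p ∈ b := hs.subset_extend hst rfl
  have hspan : Submodule.span ℚ b = ⊤ := by
    rw [eq_top_iff, ← span_top n Γ h]
    apply Submodule.span_le.2
    rintro _ ⟨i, rfl⟩
    exact hs.subset_span_extend hst (Or.inr ⟨i, rfl⟩)
  have hbasis : LinearIndependent ℚ (fun x : b => (x : ι → ℚ)) := hbl
  let bas : Module.Basis b ℚ (ι → ℚ) := Module.Basis.mk hbasis (by
    rw [Subtype.range_coe_subtype]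
    simp only [Set.setOf_mem_eq]
    exact hspan.ge)
  haveI : Finite b := Module.Finite.finite_basis bas
  haveI : Fintype b := Fintype.ofFinite b
  have hcard : Fintype.card b = Fintype.card ι := by
    have h1 := Module.finrank_eq_card_basis bas
    rw [Module.finrank_fintype_fun_eq_card] at h1
    exact h1.symm
  let e : b ≃ ι := Fintype.equivOfCardEq hcard
  have hg : ∀ x : b, ∃ g : ι → ℤ, c g = x ∧ ((x : ι → ℚ) ≠ c p → ∃ i < n, g = Γ i) := by
    intro x
    by_cases hx : (x : ι → ℚ) = c p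
    · exact ⟨p, hx.symm, fun h => (h hx).elim⟩
    · rcases hbs x.2 with h1 | ⟨i, hi⟩
      · exact (hx h1).elim
      · exact ⟨Γ i, hi, fun _ => ⟨i, i.2, rfl⟩⟩
  choose g hg1 hg2 using hg
  refine ⟨Matrix.of fun r => g (e.symm r), e ⟨c p, hpb⟩, ?_, ?_, ?_⟩
  · intro hdet
    have h1 : LinearIndependent ℚ (fun r : ι => ((e.symm r : b) : ι → ℚ)) :=
      hbasis.comp _ e.symm.injective
    have h2 : (Matrix.of fun r => g (e.symm r)).map (Int.castRingHom ℚ) =
        Matrix.of (fun r : ι => ((e.symm r : b) : ι → ℚ)) := by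
      ext r s
      have := congrFun (hg1 (e.symm r)) s
      simpa [hc] using this
    have h3 : IsUnit (Matrix.of (fun r : ι => ((e.symm r : b) : ι → ℚ))) := by
      rw [← Matrix.linearIndependent_rows_iff_isUnit]
      exact h1
    have h4 := (Matrix.isUnit_iff_isUnit_det _).1 h3
    rw [← h2] at h4
    have h5 : ((Matrix.of fun r => g (e.symm r)).map (Int.castRingHom ℚ)).det =
        (Int.castRingHom ℚ) (Matrix.of fun r => g (e.symm r)).det :=
      (RingHom.map_det (Int.castRingHom ℚ) _).symm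
    rw [h5, hdet] at h4
    simp at h4
  · apply cinj
    show c (g (e.symm (e ⟨c p, hpb⟩))) = c p
    rw [Equiv.symm_apply_apply, hg1]
  · intro r hr
    apply hg2
    intro h1
    apply hr
    rw [← e.apply_symm_apply r]
    congr 1
    exact Subtype.ext h1

theorem pf_LAL : T_LAL := by
  intro ι _ _ i0 v p n Γ H S ε hv hp hH hS hε hpH hΓS hΓε hΛ
  classical
  obtain ⟨B, r0, hdet, hB0, hB⟩ := exists_rows p n Γ hp hΛ
  set Bc : Matrix ι ι ℂ := B.map (Int.castRingHom ℂ) with hBc
  have hBce : ∀ r s, Bc r s = (B r s : ℂ) := fun r s => by simp [hBc]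
  have hdetc : Bc.det = ((B.det : ℤ) : ℂ) := by
    have := (RingHom.map_det (Int.castRingHom ℂ) B)
    simpa [hBc] using this.symm
  have h1 : (1 : ℝ) ≤ ‖Bc.det‖ := by
    rw [hdetc, Complex.norm_intCast]
    exact_mod_cast Int.one_le_abs hdet
  set M := Fintype.card ι with hM
  -- Cramer
  have h2 : Bc.det = ∑ r, Bc.adjugate i0 r * (Bc.mulVec v) r := by
    have h3 : Bc.adjugate.mulVec (Bc.mulVec v) = Bc.det • v := by
      rw [Matrix.mulVec_mulVec, Matrix.adjugate_mul, Matrix.smul_mulVec, Matrix.one_mulVec]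
    have h4 := congrFun h3 i0
    simp only [Pi.smul_apply, smul_eq_mul, hv, mul_one] at h4
    rw [← h4]
    rfl
  have hrow : ∀ r, r ≠ r0 → ∀ s, ‖Bc r s‖ ≤ S := by
    intro r hr s
    obtain ⟨i, hi, hBr⟩ := hB r hr
    rw [hBce, Complex.norm_intCast, hBr]
    exact hΓS i hi s
  have hrow0 : ∀ s, ‖Bc r0 s‖ ≤ H := by
    intro s
    rw [hBce, Complex.norm_intCast, hB0]
    exact hpH s
  have hsingle : ∀ s, ‖(Pi.single i0 (1 : ℂ) : ι → ℂ) s‖ ≤ 1 := by
    intro s
    by_cases h : s = i0
    · subst h; simp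
    · rw [Pi.single_eq_of_ne h]; simp
  have hS0 : 0 ≤ S := by linarith
  have hH0 : 0 ≤ H := by linarith
  -- adjugate bounds
  have ha0 : ‖Bc.adjugate i0 r0‖ ≤ (M.factorial : ℝ) * S ^ (M - 1) := by
    rw [Matrix.adjugate_apply]
    refine (det_row_le _ (Function.update (fun _ => S) r0 1) ?_).trans ?_
    · intro r s
      by_cases hr : r = r0
      · subst hr
        rw [Matrix.updateRow_self, Function.update_self]
        exact hsingle s
      · rw [Matrix.updateRow_ne hr, Function.update_of_ne hr]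
        exact hrow r hr s
    · rw [Finset.prod_update_of_mem (Finset.mem_univ r0)]
      simp [Finset.card_sdiff, ← hM]
  have ha : ∀ r, r ≠ r0 → ‖Bc.adjugate i0 r‖ ≤ (M.factorial : ℝ) * (H * S ^ (M - 2)) := by
    intro r hr
    rw [Matrix.adjugate_apply]
    refine (det_row_le _ (Function.update (Function.update (fun _ => S) r0 H) r 1) ?_).trans ?_
    · intro r' s
      by_cases hr' : r' = r
      · subst hr'
        rw [Matrix.updateRow_self, Function.update_self]
        exact hsingle s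
      · rw [Matrix.updateRow_ne hr', Function.update_of_ne hr']
        by_cases h0 : r' = r0
        · subst h0
          rw [Function.update_self]
          exact hrow0 s
        · rw [Function.update_of_ne h0]
          exact hrow r' h0 s
    · rw [Finset.prod_update_of_mem (Finset.mem_univ r), one_mul]
      rw [Finset.prod_update_of_mem (by simp [Ne.symm hr] : r0 ∈ Finset.univ \ {r})]
      rw [Finset.prod_const]
      have hc : (((Finset.univ : Finset ι) \ {r}) \ {r0}).card = M - 2 := by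
        rw [Finset.card_sdiff, Finset.card_sdiff, Finset.card_univ]
        have e1 : ({r} : Finset ι) ∩ Finset.univ = {r} := by simp
        have e2 : ({r0} : Finset ι) ∩ (Finset.univ \ {r}) = {r0} := by
          ext x
          simp only [Finset.mem_inter, Finset.mem_singleton, Finset.mem_sdiff, Finset.mem_univ,
            true_and]
          constructor
          · exact fun h => h.1
          · intro h
            exact ⟨h, by rw [h]; exact Ne.symm hr⟩
        rw [e1, e2, Finset.card_singleton, Finset.card_singleton]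
        omega
      rw [hc]
  have hw0 : (Bc.mulVec v) r0 = ∑ e, (p e : ℂ) * v e := by
    show ∑ e, Bc r0 e * v e = _
    refine Finset.sum_congr rfl fun e _ => ?_
    rw [hBce, hB0]
  have hw : ∀ r, r ≠ r0 → ‖(Bc.mulVec v) r‖ ≤ ε := by
    intro r hr
    obtain ⟨i, hi, hBr⟩ := hB r hr
    have : (Bc.mulVec v) r = ∑ e, (Γ i e : ℂ) * v e := by
      show ∑ e, Bc r e * v e = _
      refine Finset.sum_congr rfl fun e _ => ?_
      rw [hBce, hBr]
    rw [this]
    exact hΓε i hi
  set P : ℝ := ‖∑ e, (p e : ℂ) * v e‖ with hP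
  have hMf : (0 : ℝ) ≤ (M.factorial : ℝ) := by positivity
  have key : ‖Bc.det‖ ≤ (M.factorial : ℝ) * S ^ (M - 1) * P +
      ∑ _r ∈ (Finset.univ.erase r0 : Finset ι), (M.factorial : ℝ) * (H * S ^ (M - 2)) * ε := by
    rw [h2, ← Finset.add_sum_erase _ _ (Finset.mem_univ r0)]
    refine (norm_add_le _ _).trans (add_le_add ?_ ?_)
    · rw [norm_mul, hw0]
      exact mul_le_mul_of_nonneg_right ha0 (norm_nonneg _)
    · refine (norm_sum_le _ _).trans (Finset.sum_le_sum fun r hr => ?_)
      have hr' := (Finset.mem_erase.1 hr).1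
      rw [norm_mul]
      exact mul_le_mul (ha r hr') (hw r hr') (norm_nonneg _) (by positivity)
  refine h1.trans (key.trans ?_)
  rw [Finset.sum_const, Finset.card_erase_of_mem (Finset.mem_univ _), Finset.card_univ,
    nsmul_eq_mul, ← hM]
  have h5 : ((M - 1 : ℕ) : ℝ) ≤ (M : ℝ) := by exact_mod_cast Nat.sub_le _ _
  have h6 : 0 ≤ (M.factorial : ℝ) * (H * S ^ (M - 2)) * ε := by positivity
  nlinarith [mul_le_mul_of_nonneg_right h5 h6]

end Pool.Agent.H83.PSV
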